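import Mathlib
import Pool.Agent.N964.MX.Defs
import Pool.Agent.N967.Lim

/-!
# MX/E (helper816 for helper964): integration of the explicit formula
-/

set_option autoImplicit false

namespace Pool.Agent.N816.MXE

open MeasureTheory
open Pool.Agent.H295R2 (fz)
open Pool.Agent.Y23 (IsZ mu Lg)
open Pool.Agent.H24R2.JP (XX)
open Pool.Agent.N964.MX

lemma cosh_pos {x : ℝ} (hx : 0 < x) : 0 < Real.cosh x - 1 := by
  have := Real.one_lt_cosh.2 hx.ne'
  linarith

lemma mem_pos {δ s : ℝ} (hδ : 0 < δ) (hδ2 : δ ≤ 2) (hs : s ∈ Set.uIcc δ 2) : 0 < s := by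
  rw [Set.uIcc_of_le hδ2] at hs
  linarith [hs.1]

lemma int_A {δ : ℝ} (y : ℝ) (hδ : 0 < δ) (hδ2 : δ ≤ 2) :
    ∫ s in δ..2, s / (s ^ 2 + y ^ 2) = 1 / 2 * Real.log ((4 + y ^ 2) / (δ ^ 2 + y ^ 2)) := by
  have hpos : ∀ s ∈ Set.uIcc δ 2, 0 < s ^ 2 + y ^ 2 := fun s hs => by
    have := mem_pos hδ hδ2 hs
    positivity
  have hd : ∀ s ∈ Set.uIcc δ 2,
      HasDerivAt (fun s => 1 / 2 * Real.log (s ^ 2 + y ^ 2)) (s / (s ^ 2 + y ^ 2)) s := by
    intro s hs
    have h1 : HasDerivAt (fun s : ℝ => s ^ 2 + y ^ 2) (2 * s) s := by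
      simpa using (hasDerivAt_pow 2 s).add_const (y ^ 2)
    have h2 := (h1.log (hpos s hs).ne').const_mul (1 / 2 : ℝ)
    exact h2.congr_deriv (by ring)
  have hc : ContinuousOn (fun s => s / (s ^ 2 + y ^ 2)) (Set.uIcc δ 2) :=
    continuousOn_id.div (by fun_prop) fun s hs => (hpos s hs).ne'
  rw [intervalIntegral.integral_eq_sub_of_hasDerivAt hd hc.intervalIntegrable,
    Real.log_div (by positivity) (hpos δ Set.left_mem_uIcc).ne']
  norm_num
  ring

lemma int_B {l δ : ℝ} (hl : 0 < l) (hδ : 0 < δ) (hδ2 : δ ≤ 2) :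
    ∫ s in δ..2, Real.sinh (l * s) / (Real.cosh (l * s) - 1) =
      1 / l * (Real.log (Real.cosh (l * 2) - 1) - Real.log (Real.cosh (l * δ) - 1)) := by
  have hpos : ∀ s ∈ Set.uIcc δ 2, 0 < Real.cosh (l * s) - 1 := fun s hs =>
    cosh_pos (mul_pos hl (mem_pos hδ hδ2 hs))
  have hd : ∀ s ∈ Set.uIcc δ 2, HasDerivAt (fun s => 1 / l * Real.log (Real.cosh (l * s) - 1))
      (Real.sinh (l * s) / (Real.cosh (l * s) - 1)) s := by
    intro s hs
    have h0 : HasDerivAt (fun s : ℝ => l * s) l s := by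
      simpa using (hasDerivAt_id s).const_mul l
    have h1 : HasDerivAt (fun s : ℝ => Real.cosh (l * s) - 1) (Real.sinh (l * s) * l) s :=
      (h0.cosh).sub_const 1
    have h2 := (h1.log (hpos s hs).ne').const_mul (1 / l : ℝ)
    exact h2.congr_deriv (by field_simp)
  have hc : ContinuousOn (fun s => Real.sinh (l * s) / (Real.cosh (l * s) - 1)) (Set.uIcc δ 2) :=
    ContinuousOn.div (Continuous.continuousOn (by fun_prop)) (Continuous.continuousOn (by fun_prop))
      fun s hs => (hpos s hs).ne'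
  rw [intervalIntegral.integral_eq_sub_of_hasDerivAt hd hc.intervalIntegrable]
  ring

lemma log_cosh {x : ℝ} (hx : 0 < x) :
    Real.log (Real.cosh x - 1) = x + 2 * Real.log (1 - Real.exp (-x)) - Real.log 2 := by
  have h0 : 0 < 1 - Real.exp (-x) := by
    have : Real.exp (-x) < 1 := Real.exp_lt_one_iff.2 (by linarith)
    linarith
  have h2 : Real.exp x * Real.exp (-x) = 1 := by rw [← Real.exp_add]; simp
  have h1 : Real.cosh x - 1 = Real.exp x * (1 - Real.exp (-x)) ^ 2 / 2 := by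
    rw [Real.cosh_eq]
    linear_combination (1 - Real.exp (-x) / 2) * h2
  rw [h1, Real.log_div (by positivity) (by norm_num), Real.log_mul (by positivity) (by positivity),
    Real.log_exp, Real.log_pow]
  push_cast
  ring

lemma neg_log {x : ℝ} (hx : 0 < x) : - Real.log (1 - Real.exp (-x)) ≤ Real.log (1 + 1 / x) := by
  have h0 : 0 < 1 - Real.exp (-x) := by
    have : Real.exp (-x) < 1 := Real.exp_lt_one_iff.2 (by linarith)
    linarith
  rw [← Real.log_inv]
  apply Real.log_le_log (by positivity)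
  have h1 : 1 + x ≤ Real.exp x := by linarith [Real.add_one_le_exp x]
  have h2 : Real.exp (-x) ≤ (1 + x)⁻¹ := by
    rw [Real.exp_neg]
    exact inv_anti₀ (by linarith) h1
  have h3 : x / (1 + x) ≤ 1 - Real.exp (-x) := by
    have : x / (1 + x) = 1 - (1 + x)⁻¹ := by field_simp; ring
    rw [this]
    linarith
  have h4 : (1 + 1 / x) = (x / (1 + x))⁻¹ := by field_simp; ring
  rw [h4]
  exact inv_anti₀ (by positivity) h3

lemma B_le {l δ : ℝ} (hl : 0 < l) (hδ : 0 < δ) :
    1 / l * (Real.log (Real.cosh (l * 2) - 1) - Real.log (Real.cosh (l * δ) - 1)) ≤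
      (2 - δ) + 2 / l * Dd l δ := by
  rw [log_cosh (by positivity), log_cosh (by positivity)]
  have h1 : Real.log (1 - Real.exp (-(l * 2))) ≤ 0 := by
    apply Real.log_nonpos
    · have : Real.exp (-(l * 2)) < 1 := Real.exp_lt_one_iff.2 (by nlinarith)
      linarith
    · have := Real.exp_pos (-(l * 2))
      linarith
  have h2 := neg_log (x := l * δ) (by positivity)
  have h3 : l * 2 + 2 * Real.log (1 - Real.exp (-(l * 2))) - Real.log 2 -
      (l * δ + 2 * Real.log (1 - Real.exp (-(l * δ))) - Real.log 2) ≤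
      l * (2 - δ) + 2 * Real.log (1 + 1 / (l * δ)) := by linarith
  have h4 := mul_le_mul_of_nonneg_left h3 (by positivity : 0 ≤ 1 / l)
  refine h4.trans (le_of_eq ?_)
  unfold Dd
  field_simp

lemma kk_cont {l δ : ℝ} (hl : 0 < l) (hδ : 0 < δ) (hδ2 : δ ≤ 2) (u : ℝ) :
    ContinuousOn (fun s => kk l s u) (Set.uIcc δ 2) := by
  unfold kk
  exact ContinuousOn.div (Continuous.continuousOn (by fun_prop))
    (Continuous.continuousOn (by fun_prop))
    fun s hs => (cosh_pos (mul_pos hl (mem_pos hδ hδ2 hs))).ne'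

lemma PS_cont {l δ : ℝ} (t : ℝ) (hl : 0 < l) (hδ : 0 < δ) (hδ2 : δ ≤ 2) :
    ContinuousOn (fun s => PS l t (kk l s)) (Set.uIcc δ 2) := by
  unfold PS
  refine continuousOn_finsetSum _ fun n _ => ?_
  exact (continuousOn_const.mul (kk_cont hl hδ hδ2 _)).mul continuousOn_const

lemma int_PS {l δ : ℝ} (t : ℝ) (hl : 0 < l) (hδ : 0 < δ) (hδ2 : δ ≤ 2) :
    ∫ s in δ..2, PS l t (kk l s) = PS l t (ww l δ) := by
  unfold PS
  rw [intervalIntegral.integral_finsetSum]
  · refine Finset.sum_congr rfl fun n _ => ?_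
    rw [intervalIntegral.integral_mul_const, intervalIntegral.integral_const_mul]
    rfl
  · intro n _
    exact ((continuousOn_const.mul (kk_cont hl hδ hδ2 _)).mul
      continuousOn_const).intervalIntegrable

lemma Dd_nonneg {l δ : ℝ} (hl : 0 < l) (hδ : 0 < δ) : 0 ≤ Dd l δ := by
  unfold Dd
  apply Real.log_nonneg
  have : 0 ≤ 1 / (l * δ) := by positivity
  linarith

/-- the integrated explicit formula -/
lemma int_ef {C t l δ : ℝ} (hC : 0 < C) (hl : 1 ≤ l) (hδ : 0 < δ) (hδ1 : δ ≤ 1)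
    {S : Finset ℂ} (h : ∀ s : ℝ, 0 < s → s ≤ 2 →
      ∑ z ∈ S, (mu z : ℝ) * (2 * s / (s ^ 2 + (t - z.im) ^ 2)) ≤
      (Lg t + C) * (Real.sinh (l * s) / (Real.cosh (l * s) - 1)) + C + C / (l ^ 2 * s) -
        2 * PS l t (kk l s)) :
    ∑ z ∈ S, (mu z : ℝ) *
      (1 / 2 * Real.log ((4 + (t - z.im) ^ 2) / (δ ^ 2 + (t - z.im) ^ 2))) ≤
      (2 - δ) / 2 * Lg t + Lg t / l * Dd l δ + 3 * C * (1 + Dd l δ) - PS l t (ww l δ) := by
  have hl0 : 0 < l := by linarith
  have hδ2 : δ ≤ 2 := by linarith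
  have e1 : ∑ z ∈ S, (mu z : ℝ) *
      (1 / 2 * Real.log ((4 + (t - z.im) ^ 2) / (δ ^ 2 + (t - z.im) ^ 2))) =
      ∫ s in δ..2, ∑ z ∈ S, (mu z : ℝ) * (s / (s ^ 2 + (t - z.im) ^ 2)) := by
    rw [intervalIntegral.integral_finsetSum]
    · refine Finset.sum_congr rfl fun z _ => ?_
      rw [intervalIntegral.integral_const_mul, int_A _ hδ hδ2]
    · intro z _
      refine ContinuousOn.intervalIntegrable (continuousOn_const.mul
        (continuousOn_id.div (by fun_prop) fun s hs => ?_))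
      have := mem_pos hδ hδ2 hs
      positivity
  have cL : ContinuousOn (fun s => ∑ z ∈ S, (mu z : ℝ) * (s / (s ^ 2 + (t - z.im) ^ 2)))
      (Set.uIcc δ 2) := by
    refine continuousOn_finsetSum _ fun z _ => continuousOn_const.mul
        (continuousOn_id.div (by fun_prop) fun s hs => ?_)
    have := mem_pos hδ hδ2 hs
    positivity
  have cK : ContinuousOn (fun s => Real.sinh (l * s) / (Real.cosh (l * s) - 1)) (Set.uIcc δ 2) :=
    ContinuousOn.div (Continuous.continuousOn (by fun_prop)) (Continuous.continuousOn (by fun_prop))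
      fun s hs => (cosh_pos (mul_pos hl0 (mem_pos hδ hδ2 hs))).ne'
  have cI : ContinuousOn (fun s : ℝ => 1 / s) (Set.uIcc δ 2) :=
    continuousOn_const.div continuousOn_id fun s hs => (mem_pos hδ hδ2 hs).ne'
  have cP := PS_cont t hl0 hδ hδ2
  have i1 : IntervalIntegrable (fun s => (Lg t + C) / 2 *
      (Real.sinh (l * s) / (Real.cosh (l * s) - 1))) volume δ 2 :=
    (continuousOn_const.mul cK).intervalIntegrable
  have i2 : IntervalIntegrable (fun _ : ℝ => C / 2) volume δ 2 :=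
    continuousOn_const.intervalIntegrable
  have i3 : IntervalIntegrable (fun s : ℝ => C / (2 * l ^ 2) * (1 / s)) volume δ 2 :=
    (continuousOn_const.mul cI).intervalIntegrable
  have i4 : IntervalIntegrable (fun s => PS l t (kk l s)) volume δ 2 := cP.intervalIntegrable
  have e2 : ∫ s in δ..2, ∑ z ∈ S, (mu z : ℝ) * (s / (s ^ 2 + (t - z.im) ^ 2)) ≤
      ∫ s in δ..2, ((Lg t + C) / 2 * (Real.sinh (l * s) / (Real.cosh (l * s) - 1)) + C / 2 +
        C / (2 * l ^ 2) * (1 / s) - PS l t (kk l s)) := by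
    refine intervalIntegral.integral_mono_on hδ2 cL.intervalIntegrable
      (((i1.add i2).add i3).sub i4) fun s hs => ?_
    have hs0 : 0 < s := by linarith [hs.1]
    have h1 := h s hs0 hs.2
    have e3 : ∑ z ∈ S, (mu z : ℝ) * (s / (s ^ 2 + (t - z.im) ^ 2)) =
        1 / 2 * ∑ z ∈ S, (mu z : ℝ) * (2 * s / (s ^ 2 + (t - z.im) ^ 2)) := by
      rw [Finset.mul_sum]
      exact Finset.sum_congr rfl fun z _ => by ring
    rw [e3]
    have e4 : C / (2 * l ^ 2) * (1 / s) = 1 / 2 * (C / (l ^ 2 * s)) := by field_simp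
    rw [e4]
    linarith
  have e3 : ∫ s in δ..2, ((Lg t + C) / 2 * (Real.sinh (l * s) / (Real.cosh (l * s) - 1)) + C / 2 +
        C / (2 * l ^ 2) * (1 / s) - PS l t (kk l s)) =
      (Lg t + C) / 2 * (1 / l * (Real.log (Real.cosh (l * 2) - 1) -
        Real.log (Real.cosh (l * δ) - 1))) + C / 2 * (2 - δ) +
        C / (2 * l ^ 2) * Real.log (2 / δ) - PS l t (ww l δ) := by
    rw [intervalIntegral.integral_sub ((i1.add i2).add i3) i4,
      intervalIntegral.integral_add (i1.add i2) i3, intervalIntegral.integral_add i1 i2,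
      intervalIntegral.integral_const_mul, intervalIntegral.integral_const_mul, int_B hl0 hδ hδ2,
      int_PS t hl0 hδ hδ2, intervalIntegral.integral_const,
      integral_one_div_of_pos hδ (by norm_num)]
    simp only [smul_eq_mul]
    ring
  have hLg : 1 ≤ Lg t := Pool.Agent.Y23.one_le_Lg t
  have hD := Dd_nonneg hl0 hδ
  have h5 := mul_le_mul_of_nonneg_left (B_le hl0 hδ) (by positivity : 0 ≤ (Lg t + C) / 2)
  -- the logarithm
  have h6 : Real.log (2 / δ) ≤ 1 + l + Dd l δ := by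
    have h7 : Real.log (2 / δ) = Real.log 2 + (Real.log l + Real.log (1 / (l * δ))) := by
      rw [← Real.log_mul hl0.ne' (by positivity), ← Real.log_mul (by norm_num) (by positivity)]
      congr 1
      field_simp
    have h8 : Real.log (1 / (l * δ)) ≤ Dd l δ := by
      unfold Dd
      exact Real.log_le_log (by positivity) (by linarith)
    have h9 : Real.log 2 ≤ 1 := by
      have := Real.log_two_lt_d9
      linarith
    have h10 : Real.log l ≤ l := (Real.log_le_sub_one_of_pos hl0).trans (by linarith)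
    rw [h7]; linarith
  have h7 : C / (2 * l ^ 2) * Real.log (2 / δ) ≤ C * (1 + Dd l δ) := by
    have h8 : C / (2 * l ^ 2) * Real.log (2 / δ) ≤ C / (2 * l ^ 2) * (1 + l + Dd l δ) :=
      mul_le_mul_of_nonneg_left h6 (by positivity)
    refine h8.trans ?_
    rw [div_mul_eq_mul_div, div_le_iff₀ (by positivity)]
    have h9 : 1 ≤ l ^ 2 := one_le_pow₀ hl
    have h10 : l ≤ l ^ 2 := by nlinarith
    have h11 : 1 + l + Dd l δ ≤ (1 + Dd l δ) * (2 * l ^ 2) := by nlinarith
    calc C * (1 + l + Dd l δ) ≤ C * ((1 + Dd l δ) * (2 * l ^ 2)) :=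
          mul_le_mul_of_nonneg_left h11 hC.le
      _ = C * (1 + Dd l δ) * (2 * l ^ 2) := by ring
  have h8 : (Lg t + C) / 2 * ((2 - δ) + 2 / l * Dd l δ) ≤
      (2 - δ) / 2 * Lg t + Lg t / l * Dd l δ + C * (1 + Dd l δ) := by
    have h9 : C / l * Dd l δ ≤ C * Dd l δ := by
      apply mul_le_mul_of_nonneg_right _ hD
      exact div_le_self hC.le hl
    have h10 : C / 2 * (2 - δ) ≤ C := by nlinarith
    have h11 : (Lg t + C) / 2 * ((2 - δ) + 2 / l * Dd l δ) =
        (2 - δ) / 2 * Lg t + Lg t / l * Dd l δ + (C / 2 * (2 - δ) + C / l * Dd l δ) := by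
      field_simp
    rw [h11]; linarith
  have h9 : C / 2 * (2 - δ) ≤ C * (1 + Dd l δ) := by nlinarith
  rw [e1]
  refine e2.trans ?_
  rw [e3]
  linarith

theorem int_of (h1 : S_ef) (h2 : S_lim) (h3 : S_gamma) : S_int := by
  intro hRH
  obtain ⟨C, hC, hef⟩ := h1 hRH
  obtain ⟨C', hC', hga⟩ := h3
  refine ⟨3 * C + C', by positivity, fun t δ l ht hδ hδ1 hl hlt => ?_⟩
  have hl0 : 0 < l := by linarith
  have hD := Dd_nonneg hl0 hδ
  set B := (2 - δ) / 2 * Lg t + Lg t / l * Dd l δ + 3 * C * (1 + Dd l δ) - PS l t (ww l δ) with hB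
  have hlim := h2 hRH δ t B hδ hδ1 fun S hS =>
    int_ef hC hl hδ hδ1 fun s hs0 hs2 => hef t s l ht hs0 hs2 hl hlt S hS
  have hg := hga δ t hδ.le hδ1 ht
  have hX : XX (δ + t * Complex.I) ≠ 0 := by
    intro h0
    have h4 := (Pool.Agent.N967.XX_re hRH h0).2
    have h5 : ((δ : ℂ) + t * Complex.I).re = δ := by simp
    rw [h5] at h4
    linarith
  have hX0 : 0 < ‖XX (δ + t * Complex.I)‖ := norm_pos_iff.2 hX
  have h6 : ‖XX (δ + t * Complex.I)‖ * Real.exp ((2 - δ) / 2 * Lg t - C') ≤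
      ‖XX (δ + t * Complex.I)‖ * (Real.exp B * ‖riemannZeta (1 / 2 + δ + t * Complex.I)‖) := by
    refine hg.trans ?_
    calc ‖XX (2 + t * Complex.I)‖ * ‖riemannZeta (1 / 2 + δ + t * Complex.I)‖
        ≤ (Real.exp B * ‖XX (δ + t * Complex.I)‖) *
          ‖riemannZeta (1 / 2 + δ + t * Complex.I)‖ := by gcongr
      _ = _ := by ring
  have h7 := le_of_mul_le_mul_left h6 hX0
  have hne : (1 / 2 + (δ : ℂ) + t * Complex.I) ≠ 1 := by
    intro h8
    have h9 := congrArg Complex.im h8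
    simp at h9
    rw [h9] at ht
    norm_num at ht
  have hz : riemannZeta (1 / 2 + δ + t * Complex.I) ≠ 0 := by
    intro h8
    rw [h8, norm_zero, mul_zero] at h7
    exact absurd h7 (not_le.2 (Real.exp_pos _))
  have hz0 : 0 < ‖riemannZeta (1 / 2 + δ + t * Complex.I)‖ := norm_pos_iff.2 hz
  rw [Pool.Agent.H295R2.fz_eq hne, norm_inv]
  rw [inv_le_comm₀ hz0 (Real.exp_pos _), ← Real.exp_neg]
  have h8 : Real.exp ((2 - δ) / 2 * Lg t - C' - B) ≤
      ‖riemannZeta (1 / 2 + δ + t * Complex.I)‖ := by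
    rw [Real.exp_sub _ B, div_le_iff₀ (Real.exp_pos _)]
    exact h7.trans (le_of_eq (mul_comm _ _))
  refine le_trans ?_ h8
  apply Real.exp_le_exp.2
  rw [hB]
  nlinarith

end Pool.Agent.N816.MXE
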